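import Pool.Agent.D0H52.Q4.Lim
import Pool.Agent.D0H43.Q4.Stm1

/-!
Project Q4, module D1.2: the limits of the regularised sums for the twists `y² = x³ + D x`,
`D = i ^ σ Δ`, `σ` odd.
-/

set_option autoImplicit false

open Filter Complex
open scoped Topology PeriodPair
open H667R3 hiding sq
open Pool.Agent.TH936.CM Pool.Agent.W192.HK

namespace Pool.Agent.D0H52.Q4.One

open H385 (ZI RQ im1 nrm)
open Pool.Agent.H304R3.HK (tc HC LH)
open Pool.Agent.W164.RC (tc_mul)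
open Pool.Agent.H304R2.EC.A1 (prim prim_ne_zero prim_mul prim_cancel prim_star re_mul' im_mul')
open Pool.Agent.Y699 hiding wi
open Pool.Agent.D0H10.Q4 Pool.Agent.D0H43.Q4

variable {L : PeriodPair} {Ω s : ℂ} {ι : Type} [DecidableEq ι] {pr : ι → ZI}

/-! ### the limits -/

/-- the alternating sum over the half periods -/
noncomputable def EB (Ω : ℂ) (δ : ℝ) (w : ℂ) : ℂ :=
  EG Ω δ w - EG Ω δ (w + Ω / 2) + EG Ω δ (w + I * (Ω / 2)) -
    EG Ω δ (w + I * (Ω * tc 1 / tc pi1))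

lemma lim_EB (h : NL L Ω s) {w : ℂ} (hw : 2 * w ∉ L.lattice) :
    Tendsto (fun δ : ℝ => EB Ω δ w) (𝓝[>] 0) (𝓝 (BB L w)) := by
  have hL := h.gl.lat
  have m1 : 2 * (Ω / 2) ∈ L.lattice := by
    have e : 2 * (Ω / 2) = Ω := by ring
    rw [e]; exact h.gl.om
  have m2 : 2 * (I * (Ω / 2)) ∈ L.lattice := by
    have e : 2 * (I * (Ω / 2)) = I * Ω := by ring
    rw [e]; exact lat_I hL h.gl.om
  have hs1 : 2 * (Ω * tc 1 / tc pi1) ∈ L.lattice := by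
    have e : 2 * (Ω * tc 1 / tc pi1) = tc ⟨1, -1⟩ * Ω := by
      rw [tc_one, tc_pi1, mul_one, div_eq_mul_inv, inv_one_I]
      unfold tc
      push_cast
      ring
    rw [e]
    exact lat_mul hL _ h.gl.om
  have m3 : 2 * (I * (Ω * tc 1 / tc pi1)) ∈ L.lattice := by
    have e : 2 * (I * (Ω * tc 1 / tc pi1)) = I * (2 * (Ω * tc 1 / tc pi1)) := by ring
    rw [e]; exact lat_I hL hs1
  have nI : ∀ t : ℂ, t ∉ L.lattice → I * t ∉ L.lattice := by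
    intro t ht h'
    apply ht
    have := neg_mem (lat_I hL h')
    have e : -(I * (I * t)) = t := by linear_combination (-t) * I_sq
    rwa [e] at this
  obtain ⟨l1, k1⟩ := lim_t hL hw m1 h.gl.half
  obtain ⟨l2, k2⟩ := lim_t hL hw m2 (nI _ h.gl.half)
  obtain ⟨l3, k3⟩ := lim_t hL hw m3 (nI _ h.gl.s1)
  have l := (l2.sub l1).sub l3
  have e1 : ℘[L] (I * (Ω / 2)) = -1 := by rw [wp_I hL, h.e1]
  have e2 : ℘[L] (I * (Ω * tc 1 / tc pi1)) = 0 := by rw [wp_I hL, h.gl.wp_s1, neg_zero]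
  have hv : 1 / 2 * Dd L w (I * (Ω / 2)) - 1 / 2 * Dd L w (Ω / 2) -
      1 / 2 * Dd L w (I * (Ω * tc 1 / tc pi1)) = BB L w := by
    unfold Dd BB
    rw [h.e1] at k1 ⊢
    rw [e1] at k2 ⊢
    rw [e2] at k3 ⊢
    have hy := h.gl.eqn (GLat.two_notMem hw)
    set x := ℘[L] w
    set y := ℘'[L] w
    have hx0 : x ≠ 0 := by simpa using k3
    have hy2 : y ^ 2 ≠ 0 := by
      have e3 : y ^ 2 = 4 * (x - 0) * (x - 1) * (x - -1) := by rw [hy]; ring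
      rw [e3]
      exact mul_ne_zero (mul_ne_zero (mul_ne_zero (by norm_num) k3) k1) k2
    have hy0 : y ≠ 0 := by
      intro h0
      rw [h0] at hy2
      norm_num at hy2
    have k2' : x + 1 ≠ 0 := by simpa using k2
    rw [sub_neg_eq_add, sub_zero]
    field_simp
    linear_combination (1 - 2 * x - x ^ 2) * hy
  rw [← hv]
  refine l.congr fun δ => ?_
  unfold EB
  ring

/-- the classes modulo eight -/
def cl (p : Fin 2 × Fin 4) : ZI :=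
  ⟨1 + 4 * ((p.1 : ℕ) : ℤ) + 2 * (((p.2 : ℕ) % 2 : ℕ) : ℤ), 2 * ((p.2 : ℕ) : ℤ)⟩

/-- the weight of a class -/
noncomputable def wc (σ : ℕ) (p : Fin 2 × Fin 4) : ℂ :=
  (-1) ^ (p.1 : ℕ) * I ^ (3 * σ * ((p.2 : ℕ) % 2))

/-- the sum over the classes modulo eight -/
noncomputable def EC (σ : ℕ) (Ω : ℂ) (δ : ℝ) (z : ℂ) : ℂ :=
  ∑ p : Fin 2 × Fin 4, wc σ p * EG Ω δ (Ω * tc (cl p) / 8 + z)

lemma EC_eq (σ : ℕ) (h : IsLat L RG Ω) (δ : ℝ) (z : ℂ) : EC σ Ω δ z = EB Ω δ (z + Ω / 8) +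
    I ^ (3 * σ) * EB Ω δ (z + Ω / 8 + (1 + I) * (Ω / 4)) := by
  have hs : Ω * tc 1 / tc pi1 = Ω * (1 - I) / 2 := by
    rw [tc_one, tc_pi1, mul_one, div_eq_mul_inv, inv_one_I]
    ring
  unfold EC EB wc cl
  rw [Fintype.sum_prod_type, Fin.sum_univ_two, Fin.sum_univ_four, Fin.sum_univ_four, hs]
  have e3 : ((3 : Fin 4) : ℕ) = 3 := rfl
  simp only [Fin.val_zero, Fin.val_one, Fin.val_two, e3]
  have c0 : Ω * tc ⟨1 + 4 * ((0 : ℕ) : ℤ) + 2 * ((0 % 2 : ℕ) : ℤ), 2 * ((0 : ℕ) : ℤ)⟩ / 8 + z =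
      z + Ω / 8 := by unfold tc; norm_num; ring
  have c1 : Ω * tc ⟨1 + 4 * ((0 : ℕ) : ℤ) + 2 * ((1 % 2 : ℕ) : ℤ), 2 * ((1 : ℕ) : ℤ)⟩ / 8 + z =
      z + Ω / 8 + (1 + I) * (Ω / 4) := by unfold tc; norm_num; ring
  have c2 : Ω * tc ⟨1 + 4 * ((0 : ℕ) : ℤ) + 2 * ((2 % 2 : ℕ) : ℤ), 2 * ((2 : ℕ) : ℤ)⟩ / 8 + z =
      z + Ω / 8 + I * (Ω / 2) := by unfold tc; norm_num; ring
  have c3 : Ω * tc ⟨1 + 4 * ((0 : ℕ) : ℤ) + 2 * ((3 % 2 : ℕ) : ℤ), 2 * ((3 : ℕ) : ℤ)⟩ / 8 + z =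
      z + Ω / 8 + (1 + I) * (Ω / 4) + I * (Ω / 2) := by unfold tc; norm_num; ring
  have c4 : Ω * tc ⟨1 + 4 * ((1 : ℕ) : ℤ) + 2 * ((0 % 2 : ℕ) : ℤ), 2 * ((0 : ℕ) : ℤ)⟩ / 8 + z =
      z + Ω / 8 + Ω / 2 := by unfold tc; norm_num; ring
  have c5 : Ω * tc ⟨1 + 4 * ((1 : ℕ) : ℤ) + 2 * ((1 % 2 : ℕ) : ℤ), 2 * ((1 : ℕ) : ℤ)⟩ / 8 + z =
      z + Ω / 8 + (1 + I) * (Ω / 4) + Ω / 2 := by unfold tc; norm_num; ring
  have c6 : Ω * tc ⟨1 + 4 * ((1 : ℕ) : ℤ) + 2 * ((2 % 2 : ℕ) : ℤ), 2 * ((2 : ℕ) : ℤ)⟩ / 8 + z =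
      z + Ω / 8 + I * (Ω * (1 - I) / 2) := by
    unfold tc; norm_num; linear_combination (Ω / 2) * I_sq
  have c7 : Ω * tc ⟨1 + 4 * ((1 : ℕ) : ℤ) + 2 * ((3 % 2 : ℕ) : ℤ), 2 * ((3 : ℕ) : ℤ)⟩ / 8 + z =
      z + Ω / 8 + (1 + I) * (Ω / 4) + I * (Ω * (1 - I) / 2) := by
    unfold tc; norm_num; linear_combination (Ω / 2) * I_sq
  rw [c0, c1, c2, c3, c4, c5, c6, c7]
  have f0 : 3 * σ * (0 % 2) = 0 := by norm_num
  have f1 : 3 * σ * (1 % 2) = 3 * σ := by norm_num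
  have f2 : 3 * σ * (2 % 2) = 0 := by norm_num
  have f3 : 3 * σ * (3 % 2) = 3 * σ := by norm_num
  simp only [f0, f1, f2, f3]
  ring

lemma zq_two (h : IsLat L RG Ω) {D : ZI} (hD : prim D) (t : ZI) :
    2 * (zq Ω D t + Ω / 8) ∉ L.lattice ∧ 2 * (zq Ω D t + Ω / 8 + (1 + I) * (Ω / 4)) ∉ L.lattice := by
  have hD0 : D ≠ 0 := prim_ne_zero hD
  have hDc := tc_ne hD0
  have t4 : tc 4 = 4 := by
    have := tc_int 4
    push_cast at this
    exact this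
  have t8 : tc 8 = 8 := by
    have := tc_int 8
    push_cast at this
    exact this
  have h4D : (4 : ZI) * D ≠ 0 := mul_ne_zero (by decide) hD0
  have key : ∀ u : ZI, u.re % 2 = 1 → u.im % 2 = 0 → ¬ (4 * D) ∣ (8 * t + D * u) := by
    intro u hu1 hu2 h'
    have h1 : (4 : ZI) ∣ 8 * t + D * u := (dvd_mul_right _ _).trans h'
    obtain ⟨c, hc⟩ := h1
    have hr := congrArg Zsqrtd.re hc
    rw [Zsqrtd.re_add, re_mul', re_mul', re_mul'] at hr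
    have e1 : (8 : ZI).re = 8 := rfl
    have e2 : (8 : ZI).im = 0 := rfl
    have e3 : (4 : ZI).re = 4 := rfl
    have e4 : (4 : ZI).im = 0 := rfl
    rw [e1, e2, e3, e4] at hr
    obtain ⟨d1, d2⟩ := hD
    obtain ⟨x, hx⟩ : ∃ x, D.re = 1 + 2 * x := ⟨D.re / 2, by omega⟩
    obtain ⟨y, hy⟩ : ∃ y, D.im = 2 * y := ⟨D.im / 2, by omega⟩
    rw [hx, hy] at hr
    have e5 : (1 + 2 * x) * u.re - 2 * y * u.im = u.re + 2 * (x * u.re - y * u.im) := by ring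
    omega
  constructor
  · have h1 := div_notMem h h4D (key 1 (by decide) (by decide))
    have e : Ω * tc (8 * t + D * 1) / tc (4 * D) = 2 * (zq Ω D t + Ω / 8) := by
      unfold zq
      rw [tc_add, tc_mul, tc_mul, tc_mul, t4, t8, tc_one]
      field_simp
      ring
    rwa [e] at h1
  · have h1 := div_notMem h h4D (key ⟨3, 2⟩ (by decide) (by decide))
    have e : Ω * tc (8 * t + D * ⟨3, 2⟩) / tc (4 * D) =
        2 * (zq Ω D t + Ω / 8 + (1 + I) * (Ω / 4)) := by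
      unfold zq
      have e5 : tc ⟨3, 2⟩ = 3 + 2 * I := by unfold tc; push_cast; ring
      rw [tc_add, tc_mul, tc_mul, tc_mul, t4, t8, e5]
      field_simp
      ring
    rwa [e] at h1

lemma lim_EC (σ : ℕ) (h : NL L Ω s) {D : ZI} (hD : prim D) (t : ZI) :
    Tendsto (fun δ : ℝ => EC σ Ω δ (zq Ω D t)) (𝓝[>] 0) (𝓝 (GI σ L Ω (zq Ω D t))) := by
  obtain ⟨n1, n2⟩ := zq_two h.gl.lat hD t
  have l := (lim_EB h n1).add ((lim_EB h n2).const_mul (I ^ (3 * σ)))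
  exact l.congr fun δ => (EC_eq σ h.gl.lat δ _).symm

/-! ### the representatives -/

lemma cl_prim (p : Fin 2 × Fin 4) : prim (cl p) := by
  unfold prim cl
  simp only
  have := p.2.isLt
  omega

/-- the inverse modulo eight -/
lemma inv_eight {D : ZI} (hD : prim D) : ∃ E : ZI, prim E ∧ (8 : ZI) ∣ D * E - 1 := by
  obtain ⟨d1, d2⟩ := hD
  obtain ⟨y, hy⟩ : ∃ y, D.im = 2 * y := ⟨D.im / 2, by omega⟩
  obtain ⟨x, hx⟩ : ∃ x, D.re = 1 + 4 * x - 2 * y := ⟨(D.re + D.im) / 4, by omega⟩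
  obtain ⟨n, hn⟩ : ∃ n : ℤ, D.re ^ 2 + D.im ^ 2 = 1 + 4 * n :=
    ⟨2 * x - y + 4 * x ^ 2 - 4 * x * y + 2 * y ^ 2, by rw [hx, hy]; ring⟩
  refine ⟨⟨(1 + 4 * n) * D.re, -((1 + 4 * n) * D.im)⟩, ?_, ?_⟩
  · unfold prim
    rw [hx, hy]
    constructor
    · show -((1 + 4 * n) * (2 * y)) % 2 = 0
      have e : (1 + 4 * n) * (2 * y) = 2 * ((1 + 4 * n) * y) := by ring
      omega
    · show ((1 + 4 * n) * (1 + 4 * x - 2 * y) + -((1 + 4 * n) * (2 * y))) % 4 = 1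
      have e : (1 + 4 * n) * (1 + 4 * x - 2 * y) + -((1 + 4 * n) * (2 * y)) =
          1 + 4 * (x + n + 4 * n * x - y - 4 * n * y) := by ring
      omega
  · rw [dvd_eight, Zsqrtd.re_sub, Zsqrtd.im_sub, re_mul', im_mul', Zsqrtd.re_one, Zsqrtd.im_one]
    constructor
    · refine ⟨n + 2 * n ^ 2, ?_⟩
      simp only
      linear_combination (1 + 4 * n) * hn
    · refine ⟨0, ?_⟩
      simp only
      ring

/-- the parametrisation of the representatives -/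
def pm (D : ZI) (p : (Fin 2 × Fin 4) × ZI) : ZI := D * cl p.1 + 8 * p.2

lemma pm_inj {D : ZI} (hD : prim D) : Function.Injective (pm D) := by
  obtain ⟨E, -, hE⟩ := inv_eight hD
  rintro ⟨⟨i, j⟩, a⟩ ⟨⟨i', j'⟩, a'⟩ hab
  unfold pm at hab
  simp only at hab
  have h1 : (8 : ZI) ∣ cl (i, j) - cl (i', j') := by
    have h2 : (8 : ZI) ∣ D * (cl (i, j) - cl (i', j')) := ⟨a' - a, by linear_combination hab⟩
    have h3 := (h2.mul_left E).sub (hE.mul_right (cl (i, j) - cl (i', j')))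
    have e : E * (D * (cl (i, j) - cl (i', j'))) - (D * E - 1) * (cl (i, j) - cl (i', j')) =
        cl (i, j) - cl (i', j') := by ring
    rwa [e] at h3
  have h2 : i = i' ∧ j = j' := by
    rw [dvd_eight] at h1
    obtain ⟨h3, h4⟩ := h1
    unfold cl at h3 h4
    rw [Zsqrtd.re_sub] at h3
    rw [Zsqrtd.im_sub] at h4
    simp only at h3 h4
    have := i.isLt
    have := i'.isLt
    have := j.isLt
    have := j'.isLt
    constructor
    · apply Fin.ext; omega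
    · apply Fin.ext; omega
  obtain ⟨rfl, rfl⟩ := h2
  have h3 : (8 : ZI) * a = 8 * a' := by linear_combination hab
  rw [mul_left_cancel₀ (by decide) h3]

lemma prim_add {a t : ZI} : prim (a + 8 * t) ↔ prim a := by
  unfold prim
  have e : (a + 8 * t).im = a.im + 8 * t.im := by
    rw [Zsqrtd.im_add, im_mul']
    have e1 : (8 : ZI).re = 8 := rfl
    have e2 : (8 : ZI).im = 0 := rfl
    rw [e1, e2]; ring
  have e' : (a + 8 * t).re = a.re + 8 * t.re := by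
    rw [Zsqrtd.re_add, re_mul']
    have e1 : (8 : ZI).re = 8 := rfl
    have e2 : (8 : ZI).im = 0 := rfl
    rw [e1, e2]; ring
  rw [e, e']
  omega

lemma pm_prim {D : ZI} (hD : prim D) (p : (Fin 2 × Fin 4) × ZI) : prim (pm D p) :=
  prim_add.2 (prim_mul hD (cl_prim p.1))

lemma pm_surj {D : ZI} (hD : prim D) {a : ZI} (ha : prim a) : ∃ p, pm D p = a := by
  obtain ⟨E, hEC, hE⟩ := inv_eight hD
  obtain ⟨b, hb⟩ : ∃ b, b = E * a := ⟨_, rfl⟩
  have hbC : prim b := hb ▸ prim_mul hEC ha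
  obtain ⟨b1, b2⟩ := hbC
  obtain ⟨j, y, hy⟩ : ∃ j : Fin 4, ∃ x, b.im = 2 * ((j : ℕ) : ℤ) + 8 * x := by
    refine ⟨⟨(b.im / 2 % 4).toNat, by omega⟩, b.im / 8, ?_⟩
    simp only
    omega
  obtain ⟨i, x, hx⟩ : ∃ i : Fin 2, ∃ x, b.re =
      1 + 4 * ((i : ℕ) : ℤ) + 2 * (((j : ℕ) % 2 : ℕ) : ℤ) + 8 * x := by
    have hj := j.isLt
    rcases (by omega : (j : ℕ) % 2 = 0 ∨ (j : ℕ) % 2 = 1) with h | h
    · refine ⟨⟨(b.re / 4 % 2).toNat, by omega⟩, b.re / 8, ?_⟩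
      simp only
      omega
    · refine ⟨⟨(b.re / 4 % 2).toNat, by omega⟩, b.re / 8, ?_⟩
      simp only
      omega
  have h1 : b = cl (i, j) + 8 * ⟨x, y⟩ := by
    have e1 : (8 : ZI).re = 8 := rfl
    have e2 : (8 : ZI).im = 0 := rfl
    unfold cl
    ext
    · rw [Zsqrtd.re_add, re_mul', e1, e2, hx]; ring
    · rw [Zsqrtd.im_add, im_mul', e1, e2, hy]; ring
  obtain ⟨u, hu⟩ := hE
  refine ⟨((i, j), D * ⟨x, y⟩ - u * a), ?_⟩
  unfold pm
  simp only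
  have h2 : D * b = D * cl (i, j) + 8 * (D * ⟨x, y⟩) := by rw [h1]; ring
  rw [hb] at h2
  linear_combination (-1 : ZI) * h2 + a * hu

/-! ### the weights -/

lemma nrm_cast (a : ZI) : ((nrm a : ℕ) : ℤ) = a.re ^ 2 + a.im ^ 2 := by
  unfold nrm
  rw [Int.natCast_natAbs, abs_of_nonneg (GaussianInt.norm_nonneg a), Zsqrtd.norm_def]
  ring

/-- the weight of a primary element -/
lemma wq_eq {a : ZI} (ha : prim a) : a.re ^ 2 + a.im ^ 2 = 1 + 4 * ((wq a : ℕ) : ℤ) := by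
  obtain ⟨a1, a2⟩ := ha
  obtain ⟨y, hy⟩ : ∃ y, a.im = 2 * y := ⟨a.im / 2, by omega⟩
  obtain ⟨x, hx⟩ : ∃ x, a.re = 1 + 4 * x - 2 * y := ⟨(a.re + a.im) / 4, by omega⟩
  have h1 := nrm_cast a
  have h2 : a.re ^ 2 + a.im ^ 2 = 1 + 4 * (2 * x - y + 4 * x ^ 2 - 4 * x * y + 2 * y ^ 2) := by
    rw [hx, hy]; ring
  unfold wq
  omega

lemma wq_mul {a b : ZI} (ha : prim a) (hb : prim b) :
    ((wq (a * b) : ℕ) : ℤ) = wq a + wq b + 4 * (wq a * wq b) := by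
  have h1 := wq_eq ha
  have h2 := wq_eq hb
  have h3 := wq_eq (prim_mul ha hb)
  rw [re_mul', im_mul'] at h3
  have h4 : (a.re * b.re - a.im * b.im) ^ 2 + (a.re * b.im + a.im * b.re) ^ 2 =
      (a.re ^ 2 + a.im ^ 2) * (b.re ^ 2 + b.im ^ 2) := by ring
  rw [h4, h1, h2] at h3
  linarith

lemma wq_add {a t : ZI} (ha : prim a) : (wq (a + 8 * t) : ℕ) % 4 = wq a % 4 := by
  have h1 := wq_eq ha
  have h2 := wq_eq ((prim_add (t := t)).2 ha)
  have e : (a + 8 * t).im = a.im + 8 * t.im := by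
    rw [Zsqrtd.im_add, im_mul']
    have e1 : (8 : ZI).re = 8 := rfl
    have e2 : (8 : ZI).im = 0 := rfl
    rw [e1, e2]; ring
  have e' : (a + 8 * t).re = a.re + 8 * t.re := by
    rw [Zsqrtd.re_add, re_mul']
    have e1 : (8 : ZI).re = 8 := rfl
    have e2 : (8 : ZI).im = 0 := rfl
    rw [e1, e2]; ring
  rw [e, e'] at h2
  have h3 : (a.re + 8 * t.re) ^ 2 + (a.im + 8 * t.im) ^ 2 = a.re ^ 2 + a.im ^ 2 +
      16 * (a.re * t.re + 4 * t.re ^ 2 + a.im * t.im + 4 * t.im ^ 2) := by ring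
  rw [h3, h1] at h2
  omega

lemma wi_mul (σ : ℕ) {a b : ZI} (ha : prim a) (hb : prim b) : wi σ (a * b) = wi σ a * wi σ b := by
  unfold wi
  rw [← pow_add]
  apply unit_pow_mod im1_norm
  have h1 : (wq (a * b)) = wq a + wq b + 4 * (wq a * wq b) := by
    have := wq_mul ha hb
    exact_mod_cast this
  have h2 : σ * wq (a * b) = (σ * wq a + σ * wq b) + 4 * (σ * (wq a * wq b)) := by rw [h1]; ring
  rw [h2]
  omega

lemma wi_add (σ : ℕ) {a t : ZI} (ha : prim a) : wi σ (a + 8 * t) = wi σ a := by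
  unfold wi
  apply unit_pow_mod im1_norm
  rw [Nat.mul_mod, wq_add ha, ← Nat.mul_mod]

lemma wi_cl {σ : ℕ} (hσ : σ % 2 = 1) (p : Fin 2 × Fin 4) : tc (wi σ (cl p)) = wc σ p := by
  obtain ⟨τ, hτ⟩ : ∃ τ, σ = 2 * τ + 1 := ⟨σ / 2, by omega⟩
  have h1 : wi σ (cl p) = im1 ^ (2 * σ * (p.1 : ℕ) + 3 * σ * ((p.2 : ℕ) % 2)) := by
    unfold wi
    apply unit_pow_mod im1_norm
    have h2 : wq (cl p) % 4 = (2 * (p.1 : ℕ) + 3 * ((p.2 : ℕ) % 2)) % 4 := by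
      obtain ⟨i, j⟩ := p
      fin_cases i <;> fin_cases j <;> rfl
    have h3 : 2 * σ * (p.1 : ℕ) + 3 * σ * ((p.2 : ℕ) % 2) =
        σ * (2 * (p.1 : ℕ) + 3 * ((p.2 : ℕ) % 2)) := by ring
    rw [h3, Nat.mul_mod, h2, ← Nat.mul_mod]
  have h4 : (I : ℂ) ^ (2 * σ) = -1 := by
    rw [pow_mul, I_sq, hτ, pow_succ, pow_mul]
    norm_num
  rw [h1, tc_pow, tc_im1, pow_add, pow_mul, h4]
  rfl

lemma cci_bd (σ : ℕ) (hp : PF pr) (V : Finset ι) (e : ι → ℕ) (a : ZI) : ‖cci σ pr V e a‖ ≤ 1 := by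
  unfold cci
  split_ifs
  · have h1 : (wi σ a).norm = 1 := by
      unfold wi
      induction σ * wq a with
      | zero => simp
      | succ j ih => rw [pow_succ, Zsqrtd.norm_mul, ih]; decide
    rw [tc_mul, norm_mul, unit_tc h1, one_mul]
    exact c4_bd hp V e a
  · rw [norm_zero]; norm_num

lemma cci_pm {σ : ℕ} (hσ : σ % 2 = 1) (hp : PF pr) (V : Finset ι) (e : ι → ℕ) {D : ZI}
    (hD : prim D) (hDV : DD pr V ∣ D) (p : (Fin 2 × Fin 4) × ZI) : cci σ pr V e (pm D p) =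
      tc (wi σ D) * (wc σ p.1 * tc (c4 pr V e (8 * p.2))) := by
  unfold cci
  rw [if_pos (pm_prim hD p)]
  have h1 : c4 pr V e (pm D p) = c4 pr V e (8 * p.2) := by
    apply c4_per hp
    unfold pm
    rw [add_sub_cancel_right]
    exact hDV.mul_right _
  have h2 : wi σ (pm D p) = wi σ D * wi σ (cl p.1) := by
    unfold pm
    rw [wi_add σ (prim_mul hD (cl_prim _)), wi_mul σ hD (cl_prim _)]
  rw [h1, h2, tc_mul, tc_mul, wi_cl hσ]
  ring

theorem RS_cci {σ : ℕ} (hσ : σ % 2 = 1) (h : IsLat L RG Ω) (hp : PF pr) (V : Finset ι) (e : ι → ℕ)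
    [Fintype (RQ (DD pr V))] {δ : ℝ} (hδ : 0 < δ) :
    RS (cci σ pr V e) δ = Ω * tc (wi σ (DD pr V)) / (8 * tc (DD pr V)) *
      ∑ q : RQ (DD pr V), tc (c4 pr V e (8 * q.out)) *
        EC σ Ω (δ * Complex.normSq (tc (DD pr V) * 8 / Ω)) (zq Ω (DD pr V) q.out) := by
  have hC := DD_prim hp V
  have hD0 := DD_ne hp V
  have hDc := tc_ne hD0
  have hs : Summable (fun a : ZI => cci σ pr V e a * fd δ (tc a)) :=
    summ_bd h hδ (cci_bd σ hp V e)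
  have hs2 : Summable (fun p : (Fin 2 × Fin 4) × ZI =>
      cci σ pr V e (pm (DD pr V) p) * fd δ (tc (pm (DD pr V) p))) := hs.comp_injective (pm_inj hC)
  have h1 : RS (cci σ pr V e) δ = ∑' p : (Fin 2 × Fin 4) × ZI,
      cci σ pr V e (pm (DD pr V) p) * fd δ (tc (pm (DD pr V) p)) := by
    unfold RS
    refine ((pm_inj hC).tsum_eq (f := fun a => cci σ pr V e a * fd δ (tc a)) ?_).symm
    intro a ha
    rw [Function.mem_support] at ha
    by_cases hca : prim a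
    · exact pm_surj hC hca
    · exfalso
      apply ha
      unfold cci
      rw [if_neg hca, zero_mul]
  rw [h1, hs2.tsum_prod' (fun q => hs2.prod_factor q), tsum_fintype]
  have h2 : ∀ p : Fin 2 × Fin 4, ∑' t : ZI, cci σ pr V e (pm (DD pr V) (p, t)) * fd δ (tc (pm (DD pr V) (p, t))) =
      tc (wi σ (DD pr V)) * wc σ p * (Ω / (tc (DD pr V) * 8) *
      ∑ q : RQ (DD pr V), tc (c4 pr V e (8 * q.out)) *
        EG Ω (δ * Complex.normSq (tc (DD pr V) * 8 / Ω)) (Ω * tc (cl p) / 8 + zq Ω (DD pr V) q.out)) := by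
    intro p
    rw [← RS_eight h hD0 (Or.inl rfl) (F := fun t => tc (c4 pr V e (8 * t)))
      (fun a => c4_bd hp V e _) (fun a b hab => by
        rw [c4_per hp V e (a := 8 * a) (b := 8 * b) (by rw [← mul_sub]; exact hab.mul_left _)])
      hδ (cl p), ← tsum_mul_left]
    refine tsum_congr fun t => ?_
    rw [cci_pm hσ hp V e hC (dvd_refl _)]
    unfold pm
    simp only
    ring
  rw [Finset.sum_congr rfl fun p _ => h2 p]
  unfold EC
  simp only [Finset.mul_sum]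
  rw [Finset.sum_comm]
  refine Finset.sum_congr (by ext; simp) fun q _ => Finset.sum_congr rfl fun p _ => ?_
  field_simp

/-- **the limits of the regularised sums** -/
theorem lim1 : S_LIM1 := by
  intro σ hσ L Ω s h ι _ pr hp V e
  classical
  have hL := h.gl.lat
  have hD0 := DD_ne hp V
  have hfin := H385.he1_finite hD0
  letI := Fintype.ofFinite (RQ (DD pr V))
  have hC : prim (DD pr V) := DD_prim hp V
  have hDc := tc_ne hD0
  have hc : 0 < Complex.normSq (tc (DD pr V) * 8 / Ω) :=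
    Complex.normSq_pos.2 (div_ne_zero (mul_ne_zero hDc (by norm_num)) hL.ne)
  have h1 : Tendsto (fun δ : ℝ => ∑ q : RQ (DD pr V), tc (c4 pr V e (8 * q.out)) *
      EC σ Ω δ (zq Ω (DD pr V) q.out)) (𝓝[>] 0)
      (𝓝 (∑ q : RQ (DD pr V), tc (c4 pr V e (8 * q.out)) *
        GI σ L Ω (zq Ω (DD pr V) q.out))) :=
    tendsto_finsetSum Finset.univ fun q _ => (lim_EC σ h hC q.out).const_mul _
  have h2 := (tendsto_scale h1 hc).const_mul
    (Ω * tc (wi σ (DD pr V)) / (8 * tc (DD pr V)))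
  unfold lvi
  rw [finsum_eq_sum_of_fintype]
  refine h2.congr' ?_
  filter_upwards [self_mem_nhdsWithin] with δ (hδ : 0 < δ)
  exact (RS_cci hσ hL hp V e hδ).symm

end Pool.Agent.D0H52.Q4.One
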