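import Pool.Agent.D0H10.Q4.Cp
import Pool.Agent.Y699.Qn

/-!
Project Q4, module A4: the limits of the regularised sums.
-/

set_option autoImplicit false

open Filter Complex
open scoped Topology PeriodPair
open H667R3 hiding sq
open Pool.Agent.TH936.CM Pool.Agent.W192.HK

namespace Pool.Agent.D0H52.Q4

open H385 (ZI RQ im1 nrm)
open Pool.Agent.H304R3.HK (tc HC LH)
open Pool.Agent.W164.RC (tc_mul)
open Pool.Agent.H304R2.EC.A1 (prim prim_ne_zero re_mul' im_mul')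
open Pool.Agent.Y699 Pool.Agent.D0H10.Q4

variable {L : PeriodPair} {Ω s : ℂ} {ι : Type} [DecidableEq ι] {pr : ι → ZI}

/-! ### the limits -/

lemma lim_t (h : IsLat L RG Ω) {w t : ℂ} (hw : 2 * w ∉ L.lattice) (ht : 2 * t ∈ L.lattice)
    (htn : t ∉ L.lattice) :
    Tendsto (fun δ : ℝ => EG Ω δ (w + t) - EG Ω δ w) (𝓝[>] 0) (𝓝 (1 / 2 * Dd L w t)) ∧
      ℘[L] w - ℘[L] t ≠ 0 := by
  have n1 : w ∉ L.lattice := GLat.two_notMem hw
  have a1 : w + t ∉ L.lattice := by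
    intro h'
    apply hw
    have h3 := L.lattice.smul_mem (2 : ℤ) h'
    have h4 := sub_mem h3 ht
    have e : (2 : ℤ) • (w + t) - 2 * t = 2 * w := by
      rw [zsmul_eq_mul]; push_cast; ring
    rwa [e] at h4
  have a2 : w - t ∉ L.lattice := by
    intro h'
    apply hw
    have h3 := L.lattice.smul_mem (2 : ℤ) h'
    have h4 := add_mem h3 ht
    have e : (2 : ℤ) • (w - t) + 2 * t = 2 * w := by
      rw [zsmul_eq_mul]; push_cast; ring
    rwa [e] at h4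
  refine ⟨?_, ?_⟩
  · have h3 := (lim_Dd h n1 htn a1 a2).const_mul (1 / 2)
    refine h3.congr fun δ => ?_
    rw [← EG_eq, ← EG_eq, ← EG_eq]
    have e : EG Ω δ (w - t) = EG Ω δ (w + t) := by
      apply EG_per h
      have e3 : w - t - (w + t) = -(2 * t) := by ring
      rw [e3]
      exact neg_mem ht
    rw [e]; ring
  · rw [sub_ne_zero, Ne, wp_eq_iff L n1 htn]
    tauto

/-- the alternating sum over the half periods -/
noncomputable def EA (Ω : ℂ) (δ : ℝ) (w : ℂ) : ℂ :=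
  EG Ω δ w + EG Ω δ (w + Ω / 2) - EG Ω δ (w + I * (Ω / 2)) -
    EG Ω δ (w + I * (Ω * tc 1 / tc pi1))

lemma lim_EA (h : NL L Ω s) {w : ℂ} (hw : 2 * w ∉ L.lattice) :
    Tendsto (fun δ : ℝ => EA Ω δ w) (𝓝[>] 0) (𝓝 (AA L w)) := by
  have hL := h.gl.lat
  have m1 : 2 * (Ω / 2) ∈ L.lattice := by
    have e : 2 * (Ω / 2) = Ω := by ring
    rw [e]; exact h.gl.om
  have m2 : 2 * (I * (Ω / 2)) ∈ L.lattice := by
    have e : 2 * (I * (Ω / 2)) = I * Ω := by ring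
    rw [e]; exact lat_I hL h.gl.om
  have hs1 : 2 * (Ω * tc 1 / tc pi1) ∈ L.lattice := by
    have e : 2 * (Ω * tc 1 / tc pi1) = tc ⟨1, -1⟩ * Ω := by
      rw [tc_one, tc_pi1, mul_one, div_eq_mul_inv, inv_one_I]
      unfold tc
      push_cast
      ring
    rw [e]
    exact lat_mul hL _ h.gl.om
  have m3 : 2 * (I * (Ω * tc 1 / tc pi1)) ∈ L.lattice := by
    have e : 2 * (I * (Ω * tc 1 / tc pi1)) = I * (2 * (Ω * tc 1 / tc pi1)) := by ring
    rw [e]; exact lat_I hL hs1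
  have nI : ∀ t : ℂ, t ∉ L.lattice → I * t ∉ L.lattice := by
    intro t ht h'
    apply ht
    have := neg_mem (lat_I hL h')
    have e : -(I * (I * t)) = t := by linear_combination (-t) * I_sq
    rwa [e] at this
  obtain ⟨l1, k1⟩ := lim_t hL hw m1 h.gl.half
  obtain ⟨l2, k2⟩ := lim_t hL hw m2 (nI _ h.gl.half)
  obtain ⟨l3, k3⟩ := lim_t hL hw m3 (nI _ h.gl.s1)
  have l := (l1.sub l2).sub l3
  have e1 : ℘[L] (I * (Ω / 2)) = -1 := by rw [wp_I hL, h.e1]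
  have e2 : ℘[L] (I * (Ω * tc 1 / tc pi1)) = 0 := by rw [wp_I hL, h.gl.wp_s1, neg_zero]
  have hv : 1 / 2 * Dd L w (Ω / 2) - 1 / 2 * Dd L w (I * (Ω / 2)) -
      1 / 2 * Dd L w (I * (Ω * tc 1 / tc pi1)) = AA L w := by
    unfold Dd AA
    rw [h.e1] at k1 ⊢
    rw [e1] at k2 ⊢
    rw [e2] at k3 ⊢
    have hy := h.gl.eqn (GLat.two_notMem hw)
    set x := ℘[L] w
    set y := ℘'[L] w
    have hx0 : x ≠ 0 := by simpa using k3
    have hy2 : y ^ 2 ≠ 0 := by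
      have e3 : y ^ 2 = 4 * (x - 0) * (x - 1) * (x - -1) := by rw [hy]; ring
      rw [e3]
      exact mul_ne_zero (mul_ne_zero (mul_ne_zero (by norm_num) k3) k1) k2
    have hy0 : y ≠ 0 := by
      intro h0
      rw [h0] at hy2
      norm_num at hy2
    have k2' : x + 1 ≠ 0 := by simpa using k2
    rw [sub_neg_eq_add, sub_zero]
    field_simp
    linear_combination (2 * x + 1 - x ^ 2) * hy
  rw [← hv]
  refine l.congr fun δ => ?_
  unfold EA
  ring

/-- the sum over the classes modulo eight -/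
noncomputable def EC (Ω : ℂ) (δ : ℝ) (z : ℂ) : ℂ :=
  ∑ p : Fin 2 × Fin 4, I ^ (p.2 : ℕ) *
    EG Ω δ (Ω * tc ⟨1 + 4 * ((p.1 : ℕ) : ℤ), 2 * ((p.2 : ℕ) : ℤ)⟩ / 8 + z)

lemma EC_eq (h : IsLat L RG Ω) (δ : ℝ) (z : ℂ) : EC Ω δ z = EA Ω δ (z + Ω / 8) +
    I * EA Ω δ (z + Ω / 8 + I * (Ω / 4)) := by
  have hom : Ω ∈ L.lattice := (mem_lat h).2 ⟨1, by rw [tc_one, mul_one]⟩
  have hs : Ω * tc 1 / tc pi1 = Ω * (1 - I) / 2 := by
    rw [tc_one, tc_pi1, mul_one, div_eq_mul_inv, inv_one_I]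
    ring
  have hI2 := I_sq
  have P : ∀ a b : ℂ, a - b ∈ L.lattice → EG Ω δ a = EG Ω δ b := fun a b hab => EG_per h δ hab
  unfold EC EA
  rw [Fintype.sum_prod_type, Fin.sum_univ_two, Fin.sum_univ_four, Fin.sum_univ_four, hs]
  simp only [Fin.val_zero, Fin.val_one, Fin.val_two, pow_zero, pow_one, one_mul, Nat.cast_zero,
    Nat.cast_one, mul_zero, add_zero, mul_one]
  have e3 : ((3 : Fin 4) : ℕ) = 3 := rfl
  rw [e3, show I ^ 3 = -I by rw [pow_succ, I_sq]; ring, I_sq]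
  have c0 : Ω * tc ⟨1, 0⟩ / 8 + z = z + Ω / 8 := by unfold tc; push_cast; ring
  have c1 : Ω * tc ⟨1, 2⟩ / 8 + z = z + Ω / 8 + I * (Ω / 4) := by unfold tc; push_cast; ring
  have c2 : Ω * tc ⟨1, 2 * ((2 : ℕ) : ℤ)⟩ / 8 + z = z + Ω / 8 + I * (Ω / 2) := by
    unfold tc; push_cast; ring
  have c3 : Ω * tc ⟨1, 2 * ((3 : ℕ) : ℤ)⟩ / 8 + z = z + Ω / 8 + I * (Ω / 4) + I * (Ω / 2) := by
    unfold tc; push_cast; ring
  have c4 : Ω * tc ⟨1 + 4, 0⟩ / 8 + z = z + Ω / 8 + Ω / 2 := by unfold tc; push_cast; ring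
  have c5 : Ω * tc ⟨1 + 4, 2⟩ / 8 + z = z + Ω / 8 + I * (Ω / 4) + Ω / 2 := by
    unfold tc; push_cast; ring
  have c6 : Ω * tc ⟨1 + 4, 2 * ((2 : ℕ) : ℤ)⟩ / 8 + z = z + Ω / 8 + I * (Ω * (1 - I) / 2) := by
    unfold tc; push_cast; linear_combination (Ω / 2) * I_sq
  have c7 : Ω * tc ⟨1 + 4, 2 * ((3 : ℕ) : ℤ)⟩ / 8 + z =
      z + Ω / 8 + I * (Ω / 4) + I * (Ω * (1 - I) / 2) := by
    unfold tc; push_cast; linear_combination (Ω / 2) * I_sq
  rw [c0, c1, c2, c3, c4, c5, c6, c7]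
  ring

lemma zq_two (h : IsLat L RG Ω) {D : ZI} (hD : Cc D) (t : ZI) :
    2 * (zq Ω D t + Ω / 8) ∉ L.lattice ∧ 2 * (zq Ω D t + Ω / 8 + I * (Ω / 4)) ∉ L.lattice := by
  have hD0 : D ≠ 0 := by
    rintro rfl
    exact absurd hD.1 (by decide)
  have hDc := tc_ne hD0
  have t4 : tc 4 = 4 := by
    have := tc_int 4
    push_cast at this
    exact this
  have t8 : tc 8 = 8 := by
    have := tc_int 8
    push_cast at this
    exact this
  have h4D : (4 : ZI) * D ≠ 0 := mul_ne_zero (by decide) hD0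
  have key : ∀ u : ZI, u.re % 2 = 1 → u.im % 2 = 0 → ¬ (4 * D) ∣ (8 * t + D * u) := by
    intro u hu1 hu2 h'
    have h1 : (4 : ZI) ∣ 8 * t + D * u := (dvd_mul_right _ _).trans h'
    obtain ⟨c, hc⟩ := h1
    have hr := congrArg Zsqrtd.re hc
    rw [Zsqrtd.re_add, re_mul', re_mul', re_mul'] at hr
    have e1 : (8 : ZI).re = 8 := rfl
    have e2 : (8 : ZI).im = 0 := rfl
    have e3 : (4 : ZI).re = 4 := rfl
    have e4 : (4 : ZI).im = 0 := rfl
    rw [e1, e2, e3, e4] at hr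
    obtain ⟨d1, d2⟩ := hD
    obtain ⟨x, hx⟩ : ∃ x, D.re = 1 + 4 * x := ⟨D.re / 4, by omega⟩
    obtain ⟨y, hy⟩ : ∃ y, D.im = 2 * y := ⟨D.im / 2, by omega⟩
    rw [hx, hy] at hr
    have e5 : (1 + 4 * x) * u.re - 2 * y * u.im = u.re + 2 * (2 * x * u.re - y * u.im) := by ring
    omega
  constructor
  · have h1 := div_notMem h h4D (key 1 (by decide) (by decide))
    have e : Ω * tc (8 * t + D * 1) / tc (4 * D) = 2 * (zq Ω D t + Ω / 8) := by
      unfold zq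
      rw [tc_add, tc_mul, tc_mul, tc_mul, t4, t8, tc_one]
      field_simp
      ring
    rwa [e] at h1
  · have h1 := div_notMem h h4D (key ⟨1, 2⟩ (by decide) (by decide))
    have e : Ω * tc (8 * t + D * ⟨1, 2⟩) / tc (4 * D) =
        2 * (zq Ω D t + Ω / 8 + I * (Ω / 4)) := by
      unfold zq
      have e5 : tc ⟨1, 2⟩ = 1 + 2 * I := by unfold tc; push_cast; ring
      rw [tc_add, tc_mul, tc_mul, tc_mul, t4, t8, e5]
      field_simp
      ring
    rwa [e] at h1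

lemma lim_EC (h : NL L Ω s) {D : ZI} (hD : Cc D) (t : ZI) :
    Tendsto (fun δ : ℝ => EC Ω δ (zq Ω D t)) (𝓝[>] 0) (𝓝 (GG L Ω (zq Ω D t))) := by
  obtain ⟨n1, n2⟩ := zq_two h.gl.lat hD t
  have l := (lim_EA h n1).add ((lim_EA h n2).const_mul I)
  exact l.congr fun δ => (EC_eq h.gl.lat δ _).symm

/-! ### the sum over one class modulo eight -/

theorem RS_eight (h : IsLat L RG Ω) {D D' : ZI} (hD0 : D ≠ 0) (hDD : D' = D ∨ D' = -D)
    [Fintype (RQ D)] {F : ZI → ℂ} (hF : ∀ a, ‖F a‖ ≤ 1) (hper : ∀ a b, D ∣ a - b → F a = F b)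
    {δ : ℝ} (hδ : 0 < δ) (c : ZI) :
    ∑' t : ZI, F t * fd δ (tc (D' * c + 8 * t)) = Ω / (tc D' * 8) *
      ∑ q : RQ D, F q.out *
        EG Ω (δ * Complex.normSq (tc D' * 8 / Ω)) (Ω * tc c / 8 + zq Ω D' q.out) := by
  have hD'0 : D' ≠ 0 := by
    rcases hDD with h1 | h1 <;> rw [h1]
    · exact hD0
    · exact neg_ne_zero.2 hD0
  have hDc := tc_ne hD'0
  have hΩ := h.ne
  have t8 : tc 8 = 8 := by
    have := tc_int 8
    push_cast at this
    exact this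
  have hinj : Function.Injective (fun t : ZI => D' * c + 8 * t) := by
    intro a b hab
    have : (8 : ZI) * a = 8 * b := by
      have h1 : D' * c + 8 * a = D' * c + 8 * b := hab
      linear_combination h1
    exact mul_left_cancel₀ (by decide) this
  have hs0 : Summable (fun t : ZI => fd δ (tc (D' * c + 8 * t))) :=
    (summ_tc h hδ).comp_injective hinj
  have hs1 : Summable (fun t : ZI => F t * fd δ (tc (D' * c + 8 * t))) := by
    refine Summable.of_norm_bounded hs0.norm fun t => ?_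
    rw [norm_mul]
    exact mul_le_of_le_one_left (norm_nonneg _) (hF t)
  set k : ℂ := tc D' * 8 / Ω with hk
  have hk0 : k ≠ 0 := div_ne_zero (mul_ne_zero hDc (by norm_num)) hΩ
  have hs2 : Summable (fun p : RQ D × ZI =>
      F (prt' D hD0 p) * fd δ (tc (D' * c + 8 * prt' D hD0 p))) :=
    ((prt' D hD0).summable_iff (f := fun t => F t * fd δ (tc (D' * c + 8 * t)))).2 hs1
  rw [← (prt' D hD0).tsum_eq, hs2.tsum_prod' (fun q => hs2.prod_factor q), tsum_fintype,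
    Finset.mul_sum]
  refine Finset.sum_congr (by ext; simp) fun q _ => ?_
  have e2 : ∀ b : ZI, F (prt' D hD0 (q, b)) = F q.out := by
    intro b
    apply hper
    rw [prt'_apply]
    exact ⟨b, by ring⟩
  unfold EG
  rw [← tsum_mul_left, ← tsum_mul_left]
  rcases hDD with h1 | h1
  · refine tsum_congr fun b => ?_
    have e3 : tc (D' * c + 8 * prt' D hD0 (q, b)) =
        k * (Ω * tc c / 8 + zq Ω D' q.out + Ω * tc b) := by
      have e4 : tc D = tc D' := by rw [h1]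
      rw [prt'_apply, tc_add, tc_mul, tc_mul, tc_add, tc_mul, hk, t8, e4]
      unfold zq
      field_simp
      ring
    rw [e2, e3, fd_mul, hk, inv_div]
    ring
  · rw [← (Equiv.neg ZI).tsum_eq]
    refine tsum_congr fun b => ?_
    have e3 : tc (D' * c + 8 * prt' D hD0 (q, (Equiv.neg ZI) b)) =
        k * (Ω * tc c / 8 + zq Ω D' q.out + Ω * tc b) := by
      have e4 : tc D = -tc D' := by rw [h1, tc_neg, neg_neg]
      rw [prt'_apply, Equiv.neg_apply, tc_add, tc_mul, tc_mul, tc_add, tc_mul, tc_neg, hk, t8, e4]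
      unfold zq
      field_simp
      ring
    rw [e2, e3, fd_mul, hk, inv_div]
    ring

/-! ### the representatives -/

/-- the classes modulo eight -/
def cl (p : Fin 2 × Fin 4) : ZI := ⟨1 + 4 * ((p.1 : ℕ) : ℤ), 2 * ((p.2 : ℕ) : ℤ)⟩

lemma cl_Cc (p : Fin 2 × Fin 4) : Cc (cl p) := by
  unfold Cc cl
  simp only
  omega

lemma dvd_eight {a : ZI} : (8 : ZI) ∣ a ↔ (8 : ℤ) ∣ a.re ∧ (8 : ℤ) ∣ a.im := by
  have e1 : (8 : ZI).re = 8 := rfl
  have e2 : (8 : ZI).im = 0 := rfl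
  constructor
  · rintro ⟨c, rfl⟩
    rw [re_mul', im_mul', e1, e2]
    exact ⟨⟨c.re, by ring⟩, ⟨c.im, by ring⟩⟩
  · rintro ⟨⟨x, hx⟩, ⟨y, hy⟩⟩
    refine ⟨⟨x, y⟩, ?_⟩
    ext
    · rw [re_mul', e1, e2, hx]; ring
    · rw [im_mul', e1, e2, hy]; ring

/-- the inverse modulo eight -/
lemma inv_eight {D : ZI} (hD : Cc D) : ∃ E : ZI, Cc E ∧ (8 : ZI) ∣ D * E - 1 := by
  obtain ⟨d1, d2⟩ := hD
  obtain ⟨x, hx⟩ : ∃ x, D.re = 1 + 4 * x := ⟨D.re / 4, by omega⟩
  obtain ⟨y, hy⟩ : ∃ y, D.im = 2 * y := ⟨D.im / 2, by omega⟩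
  have hN : ∃ n : ℤ, D.re ^ 2 + D.im ^ 2 = 1 + 4 * n := ⟨2 * x + 4 * x ^ 2 + y ^ 2, by
    rw [hx, hy]; ring⟩
  obtain ⟨n, hn⟩ := hN
  refine ⟨⟨(1 + 4 * n) * D.re, -((1 + 4 * n) * D.im)⟩, ?_, ?_⟩
  · unfold Cc
    rw [hx, hy]
    constructor
    · have e : (1 + 4 * n) * (1 + 4 * x) = 1 + 4 * (x + n + 4 * n * x) := by ring
      show (1 + 4 * n) * (1 + 4 * x) % 4 = 1
      omega
    · show -((1 + 4 * n) * (2 * y)) % 2 = 0
      have e : (1 + 4 * n) * (2 * y) = 2 * ((1 + 4 * n) * y) := by ring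
      omega
  · rw [dvd_eight, Zsqrtd.re_sub, Zsqrtd.im_sub, re_mul', im_mul', Zsqrtd.re_one, Zsqrtd.im_one]
    constructor
    · refine ⟨n + 2 * n ^ 2, ?_⟩
      simp only
      linear_combination (1 + 4 * n) * hn
    · refine ⟨0, ?_⟩
      simp only
      ring

/-- the parametrisation of the representatives -/
def pm (D : ZI) (p : (Fin 2 × Fin 4) × ZI) : ZI := D * cl p.1 + 8 * p.2

lemma pm_inj {D : ZI} (hD : Cc D) : Function.Injective (pm D) := by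
  obtain ⟨E, -, hE⟩ := inv_eight hD
  rintro ⟨⟨i, j⟩, a⟩ ⟨⟨i', j'⟩, a'⟩ hab
  unfold pm at hab
  simp only at hab
  have h1 : (8 : ZI) ∣ cl (i, j) - cl (i', j') := by
    have h2 : (8 : ZI) ∣ D * (cl (i, j) - cl (i', j')) := ⟨a' - a, by linear_combination hab⟩
    have h3 := (h2.mul_left E).sub (hE.mul_right (cl (i, j) - cl (i', j')))
    have e : E * (D * (cl (i, j) - cl (i', j'))) - (D * E - 1) * (cl (i, j) - cl (i', j')) =
        cl (i, j) - cl (i', j') := by ring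
    rwa [e] at h3
  have h2 : i = i' ∧ j = j' := by
    rw [dvd_eight] at h1
    obtain ⟨h3, h4⟩ := h1
    unfold cl at h3 h4
    rw [Zsqrtd.re_sub] at h3
    rw [Zsqrtd.im_sub] at h4
    simp only at h3 h4
    have := i.isLt
    have := i'.isLt
    have := j.isLt
    have := j'.isLt
    constructor
    · apply Fin.ext; omega
    · apply Fin.ext; omega
  obtain ⟨rfl, rfl⟩ := h2
  have h3 : (8 : ZI) * a = 8 * a' := by linear_combination hab
  rw [mul_left_cancel₀ (by decide) h3]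

lemma pm_Cc {D : ZI} (hD : Cc D) (p : (Fin 2 × Fin 4) × ZI) : Cc (pm D p) :=
  Cc_add.2 (Cc_mul hD (cl_Cc p.1))

lemma pm_surj {D : ZI} (hD : Cc D) {a : ZI} (ha : Cc a) : ∃ p, pm D p = a := by
  obtain ⟨E, hEC, hE⟩ := inv_eight hD
  obtain ⟨b, hb⟩ : ∃ b, b = E * a := ⟨_, rfl⟩
  have hbC : Cc b := hb ▸ Cc_mul hEC ha
  obtain ⟨b1, b2⟩ := hbC
  obtain ⟨i, hi⟩ : ∃ i : Fin 2, ∃ x, b.re = 1 + 4 * ((i : ℕ) : ℤ) + 8 * x := by
    refine ⟨⟨(b.re / 4 % 2).toNat, by omega⟩, b.re / 8, ?_⟩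
    simp only
    omega
  obtain ⟨j, hj⟩ : ∃ j : Fin 4, ∃ x, b.im = 2 * ((j : ℕ) : ℤ) + 8 * x := by
    refine ⟨⟨(b.im / 2 % 4).toNat, by omega⟩, b.im / 8, ?_⟩
    simp only
    omega
  obtain ⟨x, hx⟩ := hi
  obtain ⟨y, hy⟩ := hj
  have h1 : b = cl (i, j) + 8 * ⟨x, y⟩ := by
    have e1 : (8 : ZI).re = 8 := rfl
    have e2 : (8 : ZI).im = 0 := rfl
    unfold cl
    ext
    · rw [Zsqrtd.re_add, re_mul', e1, e2, hx]; ring
    · rw [Zsqrtd.im_add, im_mul', e1, e2, hy]; ring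
  obtain ⟨u, hu⟩ := hE
  refine ⟨((i, j), D * ⟨x, y⟩ - u * a), ?_⟩
  unfold pm
  simp only
  have h2 : D * b = D * cl (i, j) + 8 * (D * ⟨x, y⟩) := by rw [h1]; ring
  rw [hb] at h2
  linear_combination (-1 : ZI) * h2 + a * hu

lemma rh_cl (p : Fin 2 × Fin 4) : rh (cl p) = im1 ^ (p.2 : ℕ) := by
  unfold rh cl
  simp only
  congr 1
  have := p.2.isLt
  omega

lemma tc_pow (a : ZI) (n : ℕ) : tc (a ^ n) = tc a ^ n := by
  induction n with
  | zero => rw [pow_zero, pow_zero, tc_one]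
  | succ n ih => rw [pow_succ, pow_succ, tc_mul, ih]

lemma ccm_pm (hp : PF pr) (V : Finset ι) (e : ι → ℕ) {D : ZI} (hD : Cc D) (hDV : DD pr V ∣ D)
    (p : (Fin 2 × Fin 4) × ZI) : ccm pr V e (pm D p) =
      tc (rh D) * (I ^ (p.1.2 : ℕ) * tc (c4 pr V e (8 * p.2))) := by
  unfold ccm
  rw [if_pos (pm_Cc hD p)]
  have h1 : c4 pr V e (pm D p) = c4 pr V e (8 * p.2) := by
    apply c4_per hp
    unfold pm
    rw [add_sub_cancel_right]
    exact hDV.mul_right _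
  have h2 : rh (pm D p) = rh D * im1 ^ (p.1.2 : ℕ) := by
    unfold pm
    rw [rh_add, rh_mul hD (cl_Cc _), rh_cl]
  rw [h1, h2, tc_mul, tc_mul, tc_pow, tc_im1]
  ring

theorem RS_ccm (h : IsLat L RG Ω) (hp : PF pr) (V : Finset ι) (e : ι → ℕ)
    [Fintype (RQ (DD pr V))] {δ : ℝ} (hδ : 0 < δ) :
    RS (ccm pr V e) δ = Ω * tc (rh (cp (DD pr V))) / (8 * tc (cp (DD pr V))) *
      ∑ q : RQ (DD pr V), tc (c4 pr V e (8 * q.out)) *
        EC Ω (δ * Complex.normSq (tc (cp (DD pr V)) * 8 / Ω)) (zq Ω (cp (DD pr V)) q.out) := by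
  have hDp := DD_prim hp V
  have hD0 := DD_ne hp V
  set D := DD pr V with hDdef
  set D' := cp D with hD'
  have hC : Cc D' := cp_Cc hDp
  have hD'0 : D' ≠ 0 := cp_ne hD0
  have hDc := tc_ne hD'0
  have hDV : D ∣ D' := cp_dvd.1 (dvd_refl _)
  have hs : Summable (fun a : ZI => ccm pr V e a * fd δ (tc a)) := summ_bd h hδ (ccm_bd hp V e)
  have hs2 : Summable (fun p : (Fin 2 × Fin 4) × ZI =>
      ccm pr V e (pm D' p) * fd δ (tc (pm D' p))) := hs.comp_injective (pm_inj hC)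
  have h1 : RS (ccm pr V e) δ = ∑' p : (Fin 2 × Fin 4) × ZI,
      ccm pr V e (pm D' p) * fd δ (tc (pm D' p)) := by
    unfold RS
    refine ((pm_inj hC).tsum_eq (f := fun a => ccm pr V e a * fd δ (tc a)) ?_).symm
    intro a ha
    rw [Function.mem_support] at ha
    by_cases hca : Cc a
    · exact pm_surj hC hca
    · exfalso
      apply ha
      unfold ccm
      rw [if_neg hca, zero_mul]
  rw [h1, hs2.tsum_prod' (fun q => hs2.prod_factor q), tsum_fintype]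
  have h2 : ∀ p : Fin 2 × Fin 4, ∑' t : ZI, ccm pr V e (pm D' (p, t)) * fd δ (tc (pm D' (p, t))) =
      tc (rh D') * I ^ (p.2 : ℕ) * (Ω / (tc D' * 8) *
      ∑ q : RQ D, tc (c4 pr V e (8 * q.out)) *
        EG Ω (δ * Complex.normSq (tc D' * 8 / Ω)) (Ω * tc (cl p) / 8 + zq Ω D' q.out)) := by
    intro p
    rw [← RS_eight h hD0 (cp_cases D) (F := fun t => tc (c4 pr V e (8 * t)))
      (fun a => c4_bd hp V e _) (fun a b hab => by
        rw [c4_per hp V e (a := 8 * a) (b := 8 * b) (by rw [← mul_sub]; exact hab.mul_left _)])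
      hδ (cl p), ← tsum_mul_left]
    refine tsum_congr fun t => ?_
    rw [ccm_pm hp V e hC hDV]
    unfold pm
    simp only
    ring
  rw [Finset.sum_congr rfl fun p _ => h2 p]
  unfold EC
  simp only [Finset.mul_sum]
  rw [Finset.sum_comm]
  refine Finset.sum_congr (by ext; simp) fun q _ => Finset.sum_congr rfl fun p _ => ?_
  unfold cl
  field_simp

/-- **the limits of the regularised sums** -/
theorem lim : S_LIM := by
  intro L Ω s h ι _ pr hp V e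
  classical
  have hL := h.gl.lat
  have hD0 := DD_ne hp V
  have hfin := H385.he1_finite hD0
  letI := Fintype.ofFinite (RQ (DD pr V))
  have hC : Cc (cp (DD pr V)) := cp_Cc (DD_prim hp V)
  have hDc := tc_ne (cp_ne hD0)
  have hc : 0 < Complex.normSq (tc (cp (DD pr V)) * 8 / Ω) :=
    Complex.normSq_pos.2 (div_ne_zero (mul_ne_zero hDc (by norm_num)) hL.ne)
  have h1 : Tendsto (fun δ : ℝ => ∑ q : RQ (DD pr V), tc (c4 pr V e (8 * q.out)) *
      EC Ω δ (zq Ω (cp (DD pr V)) q.out)) (𝓝[>] 0)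
      (𝓝 (∑ q : RQ (DD pr V), tc (c4 pr V e (8 * q.out)) *
        GG L Ω (zq Ω (cp (DD pr V)) q.out))) :=
    tendsto_finsetSum Finset.univ fun q _ => (lim_EC h hC q.out).const_mul _
  have h2 := (tendsto_scale h1 hc).const_mul
    (Ω * tc (rh (cp (DD pr V))) / (8 * tc (cp (DD pr V))))
  unfold lv
  rw [finsum_eq_sum_of_fintype]
  refine h2.congr' ?_
  filter_upwards [self_mem_nhdsWithin] with δ (hδ : 0 < δ)
  exact (RS_ccm hL hp V e hδ).symm

end Pool.Agent.D0H52.Q4
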