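import Pool.Agent.D0H43.Q4.Stm4
import Pool.Agent.D0H15.Q4.Comb

/-!
# Project Q4, D2.8: the combinatorial recursion of class `b = 1`
-/

set_option autoImplicit false

open Finset

namespace Pool.Agent.D0H52.Q4.CO

open Pool.Agent.D0H10.Q4 (MQ)
open Pool.Agent.D0H15.Q4 (Qp Qp_left Qp_right Qp_last path_zero sum_MQ)
open Pool.Agent.D0H43.Q4 (ham MB)

variable {ι κ : Type} [DecidableEq ι] [DecidableEq κ]

/-- the determinant of the image of a set -/
theorem det_map (f : ι ↪ κ) (t : κ → ZMod 2) (A : κ → κ → ZMod 2) (T : Finset ι) :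
    (MQ t A (T.map f)).det = (MQ (fun i => t (f i)) (fun i j => A (f i) (f j)) T).det := by
  let e : T ≃ (T.map f : Finset κ) := Equiv.ofBijective
    (fun x => (⟨f x, Finset.mem_map_of_mem f x.2⟩ : (T.map f : Finset κ))) (by
      constructor
      · intro a b h
        have h' : f a = f b := congrArg (fun x : (T.map f : Finset κ) => (x : κ)) h
        exact Subtype.ext (f.injective h')
      · rintro ⟨x, hx⟩
        obtain ⟨y, hy, rfl⟩ := Finset.mem_map.1 hx
        exact ⟨⟨y, hy⟩, rfl⟩)
  have hev : ∀ i : T, ((e i : (T.map f : Finset κ)) : κ) = f i := fun i => rfl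
  rw [← Matrix.det_submatrix_equiv_self e]
  congr 1
  ext i j
  simp only [MQ, Matrix.of_apply, Matrix.submatrix_apply, hev]
  by_cases h : i = j
  · subst h
    rw [if_pos rfl, if_pos rfl]
    congr 1
    have e1 : (T.map f).erase (f i) = (T.erase i).map f := by
      rw [Finset.map_erase]
    rw [e1, Finset.sum_map]
  · rw [if_neg h, if_neg]
    intro h'
    exact h (e.injective h')

/-- the extended set -/
def ex (V : Finset ι) : Finset (Option ι) := insert none (V.map Function.Embedding.some)

omit [DecidableEq ι] in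
theorem none_notMem (V : Finset ι) : none ∉ V.map Function.Embedding.some := by simp

/-- the extended potential -/
def tx (g : ι → ZMod 2) (c : ZMod 2) : Option ι → ZMod 2
  | none => c
  | some i => g i

/-- the extended adjacency -/
def Ax (A : ι → ι → ZMod 2) (t : ι → ZMod 2) : Option ι → Option ι → ZMod 2
  | none, none => 0
  | none, some j => t j
  | some i, none => t i
  | some i, some j => A i j

theorem two (a : ZMod 2) : a + a = 0 := CharTwo.add_self_eq_zero a

theorem det_MB (h t : ι → ZMod 2) (c : ZMod 2) (A : ι → ι → ZMod 2) (V : Finset ι) :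
    (MB h t (c + ∑ j ∈ V, t j) A V).det = (MQ (tx (fun i => h i + t i) c) (Ax A t) (ex V)).det := by
  let F : Option V → (ex V : Finset (Option ι)) := fun x => match x with
    | none => ⟨none, Finset.mem_insert_self _ _⟩
    | some i => ⟨some (i : ι), Finset.mem_insert_of_mem (Finset.mem_map_of_mem _ i.2)⟩
  have hF : Function.Bijective F := by
    constructor
    · intro a b hab
      have h1 : ((F a : (ex V : Finset (Option ι))) : Option ι) = F b := congrArg _ hab
      cases a <;> cases b
      · rfl
      · exact absurd h1 (by simp [F])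
      · exact absurd h1 (by simp [F])
      · simp only [F, Option.some.injEq] at h1
        rw [Subtype.ext h1]
    · rintro ⟨x, hx⟩
      rcases Finset.mem_insert.1 hx with rfl | hx'
      · exact ⟨none, rfl⟩
      · obtain ⟨y, hy, rfl⟩ := Finset.mem_map.1 hx'
        exact ⟨some ⟨y, hy⟩, rfl⟩
  let e := Equiv.ofBijective F hF
  have hn : ((e none : (ex V : Finset (Option ι))) : Option ι) = none := rfl
  have hs : ∀ i : V, ((e (some i) : (ex V : Finset (Option ι))) : Option ι) = some (i : ι) := fun i => rfl
  rw [← Matrix.det_submatrix_equiv_self e]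
  congr 1
  ext i j
  simp only [MQ, Matrix.of_apply, Matrix.submatrix_apply]
  cases i with
  | none =>
    cases j with
    | none =>
      rw [if_pos rfl, hn]
      have e1 : (ex V).erase none = V.map Function.Embedding.some := by
        rw [ex, Finset.erase_insert (none_notMem V)]
      rw [e1, Finset.sum_map]
      rfl
    | some j =>
      rw [if_neg (fun h' => by have h9 := e.injective h'; simp at h9), hn, hs]
      rfl
  | some i =>
    cases j with
    | none =>
      rw [if_neg (fun h' => by have h9 := e.injective h'; simp at h9), hn, hs]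
      rfl
    | some j =>
      rw [hs, hs]
      simp only [MB]
      by_cases hij : i = j
      · subst hij
        rw [if_pos rfl, if_pos rfl]
        have e1 : (ex V).erase (some (i : ι)) = insert none ((V.erase i).map Function.Embedding.some) := by
          rw [ex, Finset.erase_insert_of_ne (by simp), Finset.map_erase]
          rfl
        rw [e1, Finset.sum_insert (none_notMem _), Finset.sum_map]
        have e2 : Ax A t none (some (i : ι)) = t i := rfl
        have e3 : ∀ l, Ax A t (Function.Embedding.some l) (some (i : ι)) = A l i := fun l => rfl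
        simp only [tx, e2, e3]
        linear_combination -(two (t i))
      · rw [if_neg hij, if_neg (fun h' => hij (Option.some.inj (e.injective h')))]
        rfl

/-- the partial sums -/
def GJ (g : ι → ZMod 2) (A : ι → ι → ZMod 2) (V : Finset ι) (j : ι) : ZMod 2 :=
  ∑ T ∈ V.powerset, (if j ∈ T then (MQ g A T).det * ∏ k ∈ V \ T, (g k + ∑ l ∈ T, A l k) else 0)

theorem full (g : ι → ZMod 2) (A : ι → ι → ZMod 2) (V : Finset ι) :
    ∑ T ∈ V.powerset, (MQ g A T).det * ∏ k ∈ V \ T, (g k + ∑ l ∈ T, A l k) = if V = ∅ then 1 else 0 := by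
  rcases V.eq_empty_or_nonempty with rfl | hV
  · simp only [Finset.powerset_empty, Finset.sum_singleton, Finset.sdiff_self, Finset.prod_empty,
      mul_one, if_true]
    exact Matrix.det_isEmpty
  · rw [if_neg hV.ne_empty]
    exact sum_MQ g A V hV

theorem GJ_rec (g : ι → ZMod 2) (A : ι → ι → ZMod 2) (V : Finset ι) (j : ι) (hj : j ∈ V) :
    GJ g A V j = g j * (if V.erase j = ∅ then 1 else 0) + ∑ i ∈ V.erase j, A i j * GJ g A (V.erase j) i := by
  have hjn : j ∉ V.erase j := Finset.notMem_erase j V
  have hV : insert j (V.erase j) = V := Finset.insert_erase hj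
  have h0 := full g A V
  rw [if_neg (Finset.ne_empty_of_mem hj)] at h0
  have hsplit : ∀ f : Finset ι → ZMod 2, ∑ T ∈ V.powerset, f T =
      ∑ T ∈ (V.erase j).powerset, f T + ∑ T ∈ (V.erase j).powerset, f (insert j T) := by
    intro f
    conv_lhs => rw [← hV]
    exact Finset.sum_powerset_insert hjn f
  have hG : GJ g A V j = ∑ T ∈ (V.erase j).powerset,
      (MQ g A (insert j T)).det * ∏ k ∈ V \ insert j T, (g k + ∑ l ∈ insert j T, A l k) := by
    unfold GJ
    rw [hsplit]
    have e1 : ∑ T ∈ (V.erase j).powerset, (if j ∈ T then (MQ g A T).det *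
        ∏ k ∈ V \ T, (g k + ∑ l ∈ T, A l k) else 0) = 0 := by
      refine Finset.sum_eq_zero fun T hT => ?_
      rw [if_neg fun h => hjn (Finset.mem_powerset.1 hT h)]
    rw [e1, zero_add]
    refine Finset.sum_congr rfl fun T _ => ?_
    rw [if_pos (Finset.mem_insert_self j T)]
  rw [hsplit, ← hG] at h0
  have hS : ∑ T ∈ (V.erase j).powerset, (MQ g A T).det * ∏ k ∈ V \ T, (g k + ∑ l ∈ T, A l k) =
      g j * (if V.erase j = ∅ then 1 else 0) + ∑ i ∈ V.erase j, A i j * GJ g A (V.erase j) i := by
    have e1 : ∀ T ∈ (V.erase j).powerset, (MQ g A T).det * ∏ k ∈ V \ T, (g k + ∑ l ∈ T, A l k) =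
        g j * ((MQ g A T).det * ∏ k ∈ V.erase j \ T, (g k + ∑ l ∈ T, A l k)) +
        ∑ i ∈ V.erase j, A i j * (if i ∈ T then (MQ g A T).det *
          ∏ k ∈ V.erase j \ T, (g k + ∑ l ∈ T, A l k) else 0) := by
      intro T hT
      have hTs := Finset.mem_powerset.1 hT
      have hjT : j ∉ T := fun h => hjn (hTs h)
      have e2 : V \ T = insert j (V.erase j \ T) := by
        rw [← Finset.insert_sdiff_of_notMem _ hjT, hV]
      have e3 : j ∉ V.erase j \ T := fun h => hjn (Finset.mem_sdiff.1 h).1
      rw [e2, Finset.prod_insert e3]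
      have e4 : ∑ i ∈ V.erase j, A i j * (if i ∈ T then (MQ g A T).det *
          ∏ k ∈ V.erase j \ T, (g k + ∑ l ∈ T, A l k) else 0) =
          (∑ l ∈ T, A l j) * ((MQ g A T).det * ∏ k ∈ V.erase j \ T, (g k + ∑ l ∈ T, A l k)) := by
        rw [Finset.sum_mul]
        simp only [mul_ite, mul_zero]
        rw [← Finset.sum_filter]
        have e5 : (V.erase j).filter (fun i => i ∈ T) = T := by
          rw [Finset.filter_mem_eq_inter, Finset.inter_eq_right.2 hTs]
        rw [e5]
      rw [e4]
      ring
    rw [Finset.sum_congr rfl e1, Finset.sum_add_distrib, ← Finset.mul_sum, full, Finset.sum_comm]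
    congr 1
    refine Finset.sum_congr rfl fun i _ => ?_
    rw [← Finset.mul_sum]
    rfl
  rw [hS] at h0
  have h2 := two (g j * (if V.erase j = ∅ then 1 else 0) + ∑ i ∈ V.erase j, A i j * GJ g A (V.erase j) i)
  linear_combination h0 - h2

theorem GJ_path (g : ι → ZMod 2) (A : ι → ι → ZMod 2) (n : ℕ) : ∀ (V : Finset ι) (b : ι), b ∈ V →
    V.card = n + 1 → GJ g A V b = ∑ a ∈ V, g a * Qp A n V a b := by
  induction n with
  | zero =>
    intro V b hb hc
    obtain ⟨a, rfl⟩ := Finset.card_eq_one.1 hc
    obtain rfl := Finset.mem_singleton.1 hb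
    rw [GJ_rec g A _ _ hb]
    simp [Qp]
  | succ n ih =>
    intro V b hb hc
    have hc' : (V.erase b).card = n + 1 := by
      rw [Finset.card_erase_of_mem hb, hc]
      rfl
    rw [GJ_rec g A V b hb, if_neg (fun h => by rw [h, Finset.card_empty] at hc'; omega), mul_zero,
      zero_add]
    have e1 : ∀ i ∈ V.erase b, A i b * GJ g A (V.erase b) i =
        ∑ a ∈ V.erase b, g a * (Qp A n (V.erase b) a i * A i b) := by
      intro i hi
      rw [ih _ _ hi hc', Finset.mul_sum]
      exact Finset.sum_congr rfl fun a _ => by ring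
    rw [Finset.sum_congr rfl e1, Finset.sum_comm]
    conv_rhs => rw [← Finset.insert_erase hb]
    rw [Finset.sum_insert (Finset.notMem_erase b V)]
    have e2 : ∀ a, Qp A (n + 1) (insert b (V.erase b)) a b =
        ∑ k ∈ V.erase b, Qp A n (V.erase b) a k * A k b := by
      intro a
      rw [Finset.insert_erase hb, Qp_last, if_pos hb]
    simp only [e2]
    have e3 : ∑ k ∈ V.erase b, Qp A n (V.erase b) b k * A k b = 0 :=
      Finset.sum_eq_zero fun k _ => by rw [Qp_left A n _ _ _ (Finset.notMem_erase b V), zero_mul]
    rw [e3, mul_zero, zero_add]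
    refine Finset.sum_congr rfl fun a _ => ?_
    rw [Finset.mul_sum]

theorem sum_GJ (g t : ι → ZMod 2) (A : ι → ι → ZMod 2) (V : Finset ι) :
    ∑ j ∈ V, t j * GJ g A V j = ham g t A V := by
  rcases V.eq_empty_or_nonempty with rfl | hV
  · simp [ham]
  · have hc : V.card = (V.card - 1) + 1 := by
      have := hV.card_pos
      omega
    unfold ham
    rw [Finset.sum_comm]
    refine Finset.sum_congr rfl fun b hb => ?_
    rw [GJ_path g A _ V b hb hc, Finset.mul_sum]
    exact Finset.sum_congr rfl fun a _ => by ring

theorem ham_add (s s' t : ι → ZMod 2) (A : ι → ι → ZMod 2) (V : Finset ι) :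
    ham (fun i => s i + s' i) t A V = ham s t A V + ham s' t A V := by
  unfold ham
  rw [← Finset.sum_add_distrib]
  refine Finset.sum_congr rfl fun a _ => ?_
  rw [← Finset.sum_add_distrib]
  exact Finset.sum_congr rfl fun b _ => by ring

theorem sq_self (a : ZMod 2) : a * a = a := by
  revert a; decide

theorem ham_self {A : ι → ι → ZMod 2} (hA : ∀ i j, A i j = A j i) (t : ι → ZMod 2) (V : Finset ι) :
    ham t t A V = if V.card = 1 then ∑ j ∈ V, t j else 0 := by
  by_cases h1 : V.card = 1
  · rw [if_pos h1]
    obtain ⟨a, rfl⟩ := Finset.card_eq_one.1 h1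
    simp [ham, Qp, sq_self]
  · rw [if_neg h1]
    rcases V.eq_empty_or_nonempty with rfl | hV
    · simp [ham]
    · have hc : V.card - 1 = (V.card - 2) + 1 := by
        have := hV.card_pos
        omega
      unfold ham
      rw [hc]
      exact path_zero rfl hA t (V.card - 2) V

/-- the identity for the bordered determinants -/
theorem sum_MB (h t : ι → ZMod 2) (c : ZMod 2) {A : ι → ι → ZMod 2} (hA : ∀ i j, A i j = A j i)
    (V : Finset ι) :
    ∑ T ∈ V.powerset, (MB h t (c + ∑ j ∈ T, t j) A T).det * ∏ k ∈ V \ T, (h k + ∑ l ∈ T, A l k) =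
      if V = ∅ then c else ham h t A V + if V.card = 1 then ∑ j ∈ V, t j else 0 := by
  have h0 := sum_MQ (tx (fun i => h i + t i) c) (Ax A t) (ex V) ⟨none, Finset.mem_insert_self _ _⟩
  unfold ex at h0
  rw [Finset.sum_powerset_insert (none_notMem V)] at h0
  have hpow : ∀ f : Finset (Option ι) → ZMod 2,
      ∑ T ∈ (V.map Function.Embedding.some).powerset, f T =
      ∑ T ∈ V.powerset, f (T.map Function.Embedding.some) := by
    intro f
    symm
    refine Finset.sum_bij (fun T _ => T.map Function.Embedding.some) ?_ ?_ ?_ ?_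
    · intro T hT
      rw [Finset.mem_powerset] at hT ⊢
      exact Finset.map_subset_map.2 hT
    · intro T _ T' _ h
      exact Finset.map_injective _ h
    · intro S hS
      rw [Finset.mem_powerset] at hS
      obtain ⟨T, hT, rfl⟩ := Finset.subset_map_iff.1 hS
      exact ⟨T, Finset.mem_powerset.2 hT, rfl⟩
    · intro T _
      rfl
  rw [hpow, hpow] at h0
  -- the subsets with the extra vertex
  have e1 : ∀ T ∈ V.powerset,
      (MQ (tx (fun i => h i + t i) c) (Ax A t) (insert none (T.map Function.Embedding.some))).det *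
        ∏ k ∈ insert none (V.map Function.Embedding.some) \ insert none (T.map Function.Embedding.some),
          (tx (fun i => h i + t i) c k +
            ∑ l ∈ insert none (T.map Function.Embedding.some), Ax A t l k) =
      (MB h t (c + ∑ j ∈ T, t j) A T).det * ∏ k ∈ V \ T, (h k + ∑ l ∈ T, A l k) := by
    intro T hT
    rw [det_MB]
    have e2 : insert none (V.map Function.Embedding.some) \ insert none (T.map Function.Embedding.some) =
        (V \ T).map Function.Embedding.some := by
      ext x
      cases x <;> simp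
    rw [e2, Finset.prod_map]
    unfold ex
    congr 1
    refine Finset.prod_congr rfl fun k _ => ?_
    rw [Finset.sum_insert (none_notMem T), Finset.sum_map]
    have e3 : Ax A t none (Function.Embedding.some k) = t k := rfl
    have e4 : ∀ l, Ax A t (Function.Embedding.some l) (Function.Embedding.some k) = A l k := fun l => rfl
    have e5 : tx (fun i => h i + t i) c (Function.Embedding.some k) = h k + t k := rfl
    simp only [e3, e4, e5]
    linear_combination two (t k)
  -- the subsets without the extra vertex
  have e6 : ∀ T ∈ V.powerset,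
      (MQ (tx (fun i => h i + t i) c) (Ax A t) (T.map Function.Embedding.some)).det *
        ∏ k ∈ insert none (V.map Function.Embedding.some) \ T.map Function.Embedding.some,
          (tx (fun i => h i + t i) c k + ∑ l ∈ T.map Function.Embedding.some, Ax A t l k) =
      (c + ∑ l ∈ T, t l) * ((MQ (fun i => h i + t i) A T).det *
        ∏ k ∈ V \ T, ((h k + t k) + ∑ l ∈ T, A l k)) := by
    intro T hT
    rw [det_map]
    have e2 : insert none (V.map Function.Embedding.some) \ T.map Function.Embedding.some =
        insert none ((V \ T).map Function.Embedding.some) := by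
      ext x
      cases x <;> simp
    rw [e2, Finset.prod_insert (none_notMem _), Finset.prod_map]
    simp only [Finset.sum_map]
    have e3 : ∀ l, Ax A t (Function.Embedding.some l) none = t l := fun l => rfl
    have e4 : ∀ l k, Ax A t (Function.Embedding.some l) (Function.Embedding.some k) = A l k :=
      fun l k => rfl
    have e5 : ∀ k, tx (fun i => h i + t i) c (Function.Embedding.some k) = h k + t k := fun k => rfl
    have e7 : tx (fun i => h i + t i) c none = c := rfl
    simp only [e3, e4, e5, e7]
    ring
  rw [Finset.sum_congr rfl e1, Finset.sum_congr rfl e6] at h0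
  have e8 : ∑ T ∈ V.powerset, (c + ∑ l ∈ T, t l) * ((MQ (fun i => h i + t i) A T).det *
      ∏ k ∈ V \ T, ((h k + t k) + ∑ l ∈ T, A l k)) =
      c * (if V = ∅ then 1 else 0) + ham (fun i => h i + t i) t A V := by
    rw [← full (fun i => h i + t i) A V, ← sum_GJ, Finset.mul_sum]
    unfold GJ
    have e9 : ∑ j ∈ V, t j * ∑ T ∈ V.powerset, (if j ∈ T then
        (MQ (fun i => h i + t i) A T).det * ∏ k ∈ V \ T, ((h k + t k) + ∑ l ∈ T, A l k) else 0) =
        ∑ T ∈ V.powerset, (∑ l ∈ T, t l) * ((MQ (fun i => h i + t i) A T).det *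
          ∏ k ∈ V \ T, ((h k + t k) + ∑ l ∈ T, A l k)) := by
      simp only [Finset.mul_sum]
      rw [Finset.sum_comm]
      refine Finset.sum_congr rfl fun T hT => ?_
      simp only [mul_ite, mul_zero]
      rw [← Finset.sum_filter, Finset.filter_mem_eq_inter,
        Finset.inter_eq_right.2 (Finset.mem_powerset.1 hT), ← Finset.sum_mul]
    rw [e9, ← Finset.sum_add_distrib]
    exact Finset.sum_congr rfl fun T _ => by ring
  rw [e8, ham_add, ham_self hA] at h0
  by_cases hV : V = ∅
  · subst hV
    rw [if_pos rfl] at h0 ⊢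
    have e10 : ham h t A (∅ : Finset ι) = 0 := by simp [ham]
    rw [e10] at h0
    simp only [Finset.card_empty, zero_ne_one, if_false] at h0
    have h2 := two c
    linear_combination h0 - h2
  · rw [if_neg hV] at h0 ⊢
    have h2 := two (ham h t A V + if V.card = 1 then ∑ j ∈ V, t j else 0)
    linear_combination h0 - h2

end Pool.Agent.D0H52.Q4.CO

namespace Pool.Agent.D0H52.Q4

open Pool.Agent.D0H43.Q4 (ham MB)

/-- **D2.8** -/
theorem combo : Pool.Agent.D0H43.Q4.S_COMBO := by
  intro ι _ h t c A hA b hb V
  induction V using Finset.strongInduction with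
  | H V ih =>
    have h1 := hb V
    have h2 := CO.sum_MB h t c hA V
    have hmem : V ∈ V.powerset := Finset.mem_powerset_self V
    rw [← Finset.add_sum_erase _ _ hmem] at h1 h2
    have h3 : ∑ T ∈ V.powerset.erase V, b T * ∏ k ∈ V \ T, (h k + ∑ l ∈ T, A l k) =
        ∑ T ∈ V.powerset.erase V, (MB h t (c + ∑ j ∈ T, t j) A T).det *
          ∏ k ∈ V \ T, (h k + ∑ l ∈ T, A l k) := by
      refine Finset.sum_congr rfl fun T hT => ?_
      rw [Finset.mem_erase, Finset.mem_powerset] at hT
      rw [ih T (Finset.ssubset_iff_subset_ne.2 ⟨hT.2, hT.1⟩)]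
    rw [h3] at h1
    simp only [Finset.sdiff_self, Finset.prod_empty, mul_one] at h1 h2
    exact add_right_cancel (h1.trans h2.symm)

end Pool.Agent.D0H52.Q4
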